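import Mathlib
import Pool.Agent.H.MP_c7f57c_an.A

namespace Pool.Agent.Results.MP_c7f57c_an.Mult

open Pool.Agent.H.MP_c7f57c_an Filter Topology Finset MeasureTheory

abbrev C := C(AddCircle (1 : ℝ), ℂ)

noncomputable def A (n : ℕ) (g : C) : ℂ := ∑ d ∈ S n, (1 / ((S n).card : ℝ)) • g (pt n d)

lemma S_pos (n : ℕ) : (0 : ℝ) < (S n).card := by
  have h2 : ((S n).card : ℝ) * (n + 2) = 2 * N n := by exact_mod_cast S_card' n
  have := N_pos n
  by_contra h
  have : ((S n).card : ℝ) = 0 := le_antisymm (not_lt.1 h) (by positivity)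
  rw [this] at h2; linarith

lemma A_mem (n : ℕ) (g : C) (s : Set ℂ) (hs : Convex ℝ s) (h : ∀ t ∈ K, g (t : ℝ) ∈ s) :
    A n g ∈ s := by
  have := S_pos n
  refine hs.sum_mem (fun _ _ => by positivity) ?_ fun d hd => h _ (pt_mem hd)
  rw [sum_const, nsmul_eq_mul]; field_simp

lemma A_four (n : ℕ) (k : ℤ) : A n (fourier k) = ∏ m ∈ range n, F k m := by
  rw [← Fin.prod_univ_eq_prod_range]
  simp only [A, F, four_E, pt]
  rw [prod_div_distrib, prod_univ_sum, ← smul_sum, S_card, Complex.real_smul, div_eq_inv_mul]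
  push_cast
  rw [mul_one, div_eq_inv_mul]
  congr 1
  apply sum_congr rfl
  intro d _
  rw [mul_sum, E_sum]
  apply prod_congr rfl
  intro m _
  rw [← E_nat]
  congr 1
  ring

lemma ex (g : C) : ∃ z, Tendsto (fun n => A n g) (hyperfilter ℕ) (𝓝 z) := by
  have h : ∀ n, A n g ∈ Metric.closedBall (0 : ℂ) ‖g‖ := fun n =>
    A_mem n g _ (convex_closedBall _ _) fun t _ => by simpa using g.norm_coe_le_norm _
  obtain ⟨z, -, hz⟩ := (isCompact_closedBall (0 : ℂ) ‖g‖).ultrafilter_le_nhds
    ((hyperfilter ℕ).map fun n => A n g) (by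
      rw [Ultrafilter.coe_map, le_principal_iff, Filter.mem_map]
      exact Eventually.of_forall h)
  exact ⟨z, hz⟩

noncomputable def L0 (g : C) : ℂ := (ex g).choose

lemma hL0 (g : C) : Tendsto (fun n => A n g) (hyperfilter ℕ) (𝓝 (L0 g)) := (ex g).choose_spec

lemma L0_mem (g : C) (s : Set ℂ) (hs : Convex ℝ s) (hc : IsClosed s)
    (h : ∀ t ∈ K, g (t : ℝ) ∈ s) : L0 g ∈ s :=
  hc.mem_of_tendsto (hL0 g) (Eventually.of_forall fun n => A_mem n g s hs h)

noncomputable def L : C →L[ℂ] ℂ :=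
  LinearMap.mkContinuous
    { toFun := L0
      map_add' := fun f g => tendsto_nhds_unique (hL0 (f + g)) (by
        simpa only [A, ContinuousMap.add_apply, smul_add, sum_add_distrib] using
          (hL0 f).add (hL0 g))
      map_smul' := fun c f => tendsto_nhds_unique (hL0 (c • f)) (by
        have := (hL0 f).const_smul c
        simpa only [A, ContinuousMap.smul_apply, smul_sum, smul_comm c, RingHom.id_apply]
          using this) }
    1 fun g => by
      have := L0_mem g _ (convex_closedBall (0 : ℂ) ‖g‖) Metric.isClosed_closedBall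
        fun t _ => by simpa using g.norm_coe_le_norm _
      simpa using this

lemma L_mem (g : C) (s : Set ℂ) (hs : Convex ℝ s) (hc : IsClosed s)
    (h : ∀ t ∈ K, g (t : ℝ) ∈ s) : L g ∈ s := L0_mem g s hs hc h

lemma L_congr (f g : C) (h : ∀ t ∈ K, f (t : ℝ) = g (t : ℝ)) : L f = L g := by
  have := L_mem (f - g) {0} (convex_singleton _) isClosed_singleton fun t ht => by simp [h t ht]
  rw [map_sub] at this
  exact sub_eq_zero.1 this

lemma L_four (m0 : ℕ) (k : ℤ) (hk : (N (m0 + 1) : ℝ) ≤ |(k : ℝ)|) :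
    ‖L (fourier k)‖ ≤ 6 / (m0 + 2) := by
  have hex : ∃ j, 2 * |(k : ℝ)| < N j := by
    obtain ⟨j, hj⟩ := exists_nat_gt (2 * |(k : ℝ)|)
    refine ⟨j, hj.trans_le ?_⟩
    have := N_ge j
    exact_mod_cast (by omega : j ≤ N j)
  classical
  have h1 := Nat.find_spec hex
  have h2 : m0 + 1 < Nat.find hex := by
    by_contra hc
    have : (N (Nat.find hex) : ℝ) ≤ N (m0 + 1) := by exact_mod_cast N_mono (not_lt.1 hc)
    linarith [abs_nonneg (k : ℝ)]
  obtain ⟨m, hm⟩ : ∃ m, Nat.find hex = m + 2 := ⟨Nat.find hex - 2, by omega⟩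
  have h3 := Nat.find_min hex (m := m + 1) (by omega)
  rw [hm] at h1
  have h4 := FF k m (not_lt.1 h3) h1.le
  have h5 : (6 : ℝ) / (m + 2) ≤ 6 / (m0 + 2) := by
    apply div_le_div_of_nonneg_left (by norm_num) (by positivity)
    have : m0 ≤ m := by omega
    have : (m0 : ℝ) ≤ m := by exact_mod_cast this
    linarith
  have h6 : ∀ j n, ‖∏ i ∈ range n, F k (j + i)‖ ≤ 1 := fun j n => by
    rw [norm_prod]
    exact prod_le_one (fun _ _ => norm_nonneg _) fun _ _ => F_le _ _
  have h7 : ∀ n, m + 2 ≤ n → ‖A n (fourier k)‖ ≤ 6 / (m0 + 2) := by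
    intro n hn
    obtain ⟨r, rfl⟩ := Nat.exists_eq_add_of_le hn
    rw [A_four, prod_range_add, prod_range_succ, prod_range_succ, mul_assoc (∏ _ ∈ _, _),
      norm_mul, norm_mul]
    have a1 := h6 0 m
    simp only [zero_add] at a1
    have a2 := h6 (m + 2) r
    have a3 := mul_le_mul a1 (h4.trans h5) (norm_nonneg _) zero_le_one
    have a4 := mul_le_mul a3 a2 (norm_nonneg _) (by positivity)
    simpa using a4
  refine le_of_tendsto (hL0 (fourier k)).norm ?_
  exact (Nat.hyperfilter_le_atTop) (eventually_atTop.2 ⟨m + 2, h7⟩)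

lemma raj (g : C) : Tendsto (fun n : ℕ => L (fourier (-(n : ℤ)) * g)) atTop (𝓝 0) := by
  have hsp : ∀ p ∈ Submodule.span ℂ (Set.range (@fourier (1 : ℝ))),
      Tendsto (fun n : ℕ => L (fourier (-(n : ℤ)) * p)) atTop (𝓝 0) := by
    intro p hp
    induction hp using Submodule.span_induction with
    | mem u hu =>
      obtain ⟨j, rfl⟩ := hu
      rw [Metric.tendsto_atTop]
      intro ε hε
      obtain ⟨m0, hm0⟩ := exists_nat_gt (6 / ε)
      refine ⟨N (m0 + 1) + j.natAbs, fun n hn => ?_⟩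
      have e : (fourier (-(n : ℤ)) * fourier j : C) = fourier (-(n : ℤ) + j) := by
        ext x; rw [ContinuousMap.mul_apply, fourier_add]
      rw [e, dist_zero_right]
      refine (L_four m0 _ ?_).trans_lt ?_
      · have : (N (m0 + 1) : ℤ) ≤ |-(n : ℤ) + j| := by
          rw [le_abs]; omega
        exact_mod_cast this
      · rw [div_lt_iff₀ hε] at hm0
        rw [div_lt_iff₀ (by positivity)]
        nlinarith
    | zero => simp
    | add u w _ _ hu hw => simpa [mul_add] using hu.add hw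
    | smul c u _ hu =>
      have e : ∀ n : ℕ, (fourier (-(n : ℤ)) * c • u : C) = c • (fourier (-(n : ℤ)) * u) := by
        intro n; ext x
        simp only [ContinuousMap.mul_apply, ContinuousMap.smul_apply, smul_eq_mul]; ring
      simpa [e] using hu.const_smul c
  rw [Metric.tendsto_atTop]
  intro ε hε
  have hg : g ∈ closure (Submodule.span ℂ (Set.range (@fourier (1 : ℝ))) : Set C) := by
    rw [← Submodule.topologicalClosure_coe, span_fourier_closure_eq_top]; trivial
  obtain ⟨p, hp, hd⟩ := Metric.mem_closure_iff.1 hg (ε / 2) (by positivity)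
  obtain ⟨n0, hn0⟩ := Metric.tendsto_atTop.1 (hsp p hp) (ε / 2) (by positivity)
  refine ⟨n0, fun n hn => ?_⟩
  have h1 := hn0 n hn
  rw [dist_zero_right] at h1 ⊢
  have h2 : L (fourier (-(n : ℤ)) * (g - p)) ∈ Metric.closedBall (0 : ℂ) ‖g - p‖ :=
    L_mem _ _ (convex_closedBall _ _) Metric.isClosed_closedBall fun t _ => by
      rw [mem_closedBall_zero_iff, ContinuousMap.mul_apply, norm_mul, four_E, E_norm, one_mul]
      exact (g - p).norm_coe_le_norm _
  rw [mem_closedBall_zero_iff, mul_sub, map_sub] at h2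
  rw [dist_eq_norm] at hd
  have := norm_le_norm_add_norm_sub' (L (fourier (-(n : ℤ)) * g)) (L (fourier (-(n : ℤ)) * p))
  linarith

lemma sep {x : ℝ} (hx : x ∈ Set.Icc (0 : ℝ) 1 \ K) :
    ∃ η : ℝ, 0 < η ∧ ∀ t ∈ K, η ≤ ‖E (x - t) - 1‖ ^ 2 := by
  refine K_compact.exists_forall_le' (Continuous.continuousOn (by unfold E; fun_prop))
    fun t ht => ?_
  obtain ⟨⟨h0, h1⟩, hK⟩ := hx
  obtain ⟨t0, t1⟩ := K_sub ht
  have n0 : x ≠ 0 := fun h => hK (h ▸ zero_mem)
  have n1 : x ≠ 1 := fun h => hK (h ▸ one_mem)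
  have n2 : x ≠ t := fun h => hK (h ▸ ht)
  apply pow_pos
  rw [norm_pos_iff, sub_ne_zero]
  intro h
  obtain ⟨j, hj⟩ := Complex.exp_eq_one_iff.1 h
  have hj' : ((x - t : ℝ) : ℂ) = (j : ℂ) := by
    apply mul_left_cancel₀ Complex.two_pi_I_ne_zero
    rw [hj]; ring
  have hj'' : x - t = j := by exact_mod_cast hj'
  have a1 : (j : ℝ) < 1 := by have := lt_of_le_of_ne h1 n1; linarith
  have a2 : (-1 : ℝ) < j := by have := lt_of_le_of_ne h0 n0.symm; linarith
  have a3 : j < 1 := by exact_mod_cast a1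
  have a4 : -1 < j := by exact_mod_cast a2
  have a5 : j = 0 := by omega
  rw [a5] at hj''
  exact n2 (by simpa [sub_eq_zero] using hj'')

noncomputable def c (n : ℕ) : ℂ := (if n = 0 then 1 else 2) * L (fourier (-(n : ℤ)))

lemma main {x : ℝ} (hx : x ∈ Set.Icc (0 : ℝ) 1 \ K) :
    Tendsto (fun n => (∑ j ∈ range (n + 1), c j * E x ^ j).re) atTop (𝓝 0) := by
  obtain ⟨η, hη, hs⟩ := sep hx
  let w : C := E x • fourier (-1)
  have hw : ∀ t : ℝ, w (t : ℝ) = E (x - t) := by
    intro t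
    simp only [w, ContinuousMap.smul_apply, four_E, smul_eq_mul, ← E_add]
    congr 1; push_cast; ring
  have hwp : ∀ (j : ℕ) (t : ℝ), fourier (-(j : ℤ)) (t : AddCircle (1 : ℝ)) * E x ^ j
      = E (x - t) ^ j := by
    intro j t
    rw [four_E, ← E_nat, ← E_nat, ← E_add]
    congr 1; push_cast; ring
  let g : C := ⟨fun u => (starRingEnd ℂ) (w u - 1) / ((max (‖w u - 1‖ ^ 2) η : ℝ) : ℂ), by
    refine Continuous.div (by fun_prop) (by fun_prop) fun u => ?_
    exact_mod_cast (lt_max_of_lt_right hη).ne'⟩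
  have hg : ∀ t ∈ K, g (t : ℝ) * (E (x - t) - 1) = 1 := by
    intro t ht
    have h1 := hs t ht
    change (starRingEnd ℂ) (w t - 1) / ((max (‖w t - 1‖ ^ 2) η : ℝ) : ℂ) * _ = 1
    rw [hw, max_eq_left h1, div_mul_eq_mul_div, Complex.conj_mul']
    push_cast
    apply div_self
    exact_mod_cast (hη.trans_le h1).ne'
  have e : ∀ n : ℕ, ∑ j ∈ range (n + 1), c j * E x ^ j
      = 2 * E x ^ (n + 1) * L (fourier (-((n + 1 : ℕ) : ℤ)) * g) - L ((w + 1) * g) := by
    intro n
    have e1 : ∑ j ∈ range (n + 1), c j * E x ^ j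
        = L (∑ j ∈ range (n + 1), ((if j = 0 then 1 else 2) * E x ^ j) • fourier (-(j : ℤ))) := by
      rw [map_sum]
      apply sum_congr rfl
      intro j _
      rw [map_smul, c, smul_eq_mul]; ring
    rw [e1, ← smul_eq_mul (2 * _), ← map_smul, ← map_sub]
    apply L_congr
    intro t ht
    have h1 := hg t ht
    have h2 : ∀ n : ℕ, (∑ j ∈ range (n + 1), (if j = 0 then 1 else 2) * E (x - t) ^ j)
        * (E (x - t) - 1) = 2 * E (x - t) ^ (n + 1) - (E (x - t) + 1) := by
      intro n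
      induction n with
      | zero => simp; ring
      | succ n ih => rw [sum_range_succ, add_mul, ih]; simp; ring
    have h3 := hwp (n + 1) t
    simp only [ContinuousMap.coe_sum, Finset.sum_apply, ContinuousMap.smul_apply, smul_eq_mul,
      ContinuousMap.sub_apply, ContinuousMap.mul_apply, ContinuousMap.add_apply,
      ContinuousMap.one_apply, hw]
    have h4 : ∑ j ∈ range (n + 1), (if j = 0 then 1 else 2) * E x ^ j
          * fourier (-(j : ℤ)) (t : AddCircle (1 : ℝ))
        = ∑ j ∈ range (n + 1), (if j = 0 then 1 else 2) * E (x - t) ^ j := by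
      apply sum_congr rfl
      intro j _
      rw [← hwp j t]; ring
    rw [h4]
    linear_combination (g t) * h2 n - 2 * g t * h3
      - (∑ j ∈ range (n + 1), (if j = 0 then 1 else 2) * E (x - t) ^ j) * h1
  have im : (L ((w + 1) * g)).re = 0 := by
    refine L_mem _ {z : ℂ | z.re = 0} ?_ (isClosed_eq Complex.continuous_re continuous_const)
      fun t ht => ?_
    · exact (convex_singleton (0 : ℝ)).linear_preimage Complex.reLm
    · have h1 := hs t ht
      change ((w t + 1) * ((starRingEnd ℂ) (w t - 1) / ((max (‖w t - 1‖ ^ 2) η : ℝ) : ℂ))).re = 0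
      rw [← mul_div_assoc, Complex.div_ofReal_re, hw]
      have h2 : (E (x - t)).re ^ 2 + (E (x - t)).im ^ 2 = 1 := by
        have := Complex.sq_norm (E (x - t))
        rw [E_norm, Complex.normSq_apply] at this
        linarith
      have : ((E (x - t) + 1) * (starRingEnd ℂ) (E (x - t) - 1)).re = 0 := by
        simp; linarith
      rw [this, zero_div]
  simp only [e, Complex.sub_re, im, sub_zero]
  have h1 : Tendsto (fun n : ℕ => 2 * E x ^ (n + 1) * L (fourier (-((n + 1 : ℕ) : ℤ)) * g))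
      atTop (𝓝 0) := by
    rw [tendsto_zero_iff_norm_tendsto_zero]
    have := ((raj g).comp (tendsto_add_atTop_nat 1)).norm.const_mul 2
    simpa [E_norm, Function.comp_def] using this
  exact (Complex.continuous_re.tendsto 0).comp h1

theorem result : ∃ (M : ℕ → ℕ) (Dg : ℕ → Finset ℕ) (K : Set ℝ),
    (∀ n, 2 ≤ M n) ∧ (∀ n, (Dg n).Nonempty ∧ Dg n ⊆ Finset.range (M n)) ∧
    K = {x : ℝ | ∃ d : ℕ → ℕ, (∀ n, d n ∈ Dg n) ∧
      HasSum (fun n => (d n : ℝ) / ∏ i ∈ Finset.range (n + 1), (M i : ℝ)) x} ∧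
    MeasureTheory.volume K = 0 ∧
    ∃ a b : ℕ → ℝ, a 0 ≠ 0 ∧ ∀ x ∈ Set.Icc (0 : ℝ) 1 \ K,
      Filter.Tendsto (fun m : ℕ => ∑ n ∈ Finset.range m,
        (a n * Real.cos (2 * Real.pi * n * x) + b n * Real.sin (2 * Real.pi * n * x)))
        Filter.atTop (nhds 0) := by
  refine ⟨fun n => n + 3, D, K, fun n => by show 2 ≤ n + 3; omega,
    fun n => ⟨⟨0, by simp [D]⟩, erase_subset _ _⟩, by simp [K, N], K_null,
    fun n => (c n).re, fun n => -(c n).im, ?_, fun x hx => ?_⟩
  · have : L (fourier (-((0 : ℕ) : ℤ))) ∈ ({1} : Set ℂ) :=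
      L_mem _ _ (convex_singleton _) isClosed_singleton fun t _ => by simp
    rw [Set.mem_singleton_iff] at this
    simp only [c, this]
    simp
  · rw [← tendsto_add_atTop_iff_nat 1]
    refine (main hx).congr fun n => ?_
    rw [Complex.re_sum]
    apply sum_congr rfl
    intro j _
    rw [← E_nat, E_eq, mul_comm Complex.I, Complex.mul_re, Complex.exp_ofReal_mul_I_re,
      Complex.exp_ofReal_mul_I_im]
    ring_nf

end Pool.Agent.Results.MP_c7f57c_an.Mult
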